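import Pool.Agent.HexRate.Transfer

set_option autoImplicit false

/-!
One firefighter on the hexagonal grid: five sixths of a firefighter are not enough.

If the total number of vertices protected in the first `t` rounds is at most `5 t / 6`, for every
`t`, then the fire on the honeycomb is not contained.
-/

namespace Pool.Agent.Results.MP_59f61a_co.FiveSixths

theorem result : ∀ a : ℕ → ℕ,
    (∀ t : ℕ, 6 * ∑ s ∈ Finset.Icc 1 t, a s ≤ 5 * t) → ¬ HexLoan.Contained a :=
  fun a ha => HexRate.rate a ha

end Pool.Agent.Results.MP_59f61a_co.FiveSixths
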