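import Pool.Agent.HexLoan.CertOf

set_option autoImplicit false

/-!
One firefighter on the hexagonal grid: a loan of one firefighter suffices.

The question is whether the fire on the honeycomb can be contained when the total number of vertices
protected in the first `t` rounds is at most `t`, for every `t`.  We show that it can be contained if
this total may be `t + 1` during a bounded interval `n ≤ t < T` of rounds only, where the beginning
`n` of the interval is prescribed.
-/

namespace Pool.Agent.Results.MP_59f61a_co.OneLoan

open HexLoan

theorem result : ∀ n : ℕ, 1 ≤ n → ∃ T : ℕ, n < T ∧ T ≤ 7 * n + 11 ∧ (n = 1 → T = 3) ∧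
    (n = 2 → T = 5) ∧
    ∀ a : ℕ → ℕ,
      (∀ t : ℕ, 1 ≤ t →
        t + (if n ≤ t ∧ t < T then 1 else 0) ≤ ∑ s ∈ Finset.Icc 1 t, a s) →
      Contained a := by
  intro n hn
  by_cases h1 : n = 1
  · subst h1
    refine ⟨3, by norm_num, by norm_num, by simp, by simp, ?_⟩
    intro a ha
    exact contained_of_cert 1 3 (by norm_num) cert_one_three a ha
  · by_cases h2 : n = 2
    · subst h2
      refine ⟨5, by norm_num, by norm_num, by simp, by simp, ?_⟩
      intro a ha
      exact contained_of_cert 2 5 (by norm_num) cert_two_five a ha
    · refine ⟨14 * (n / 2) + 11, by omega, by omega, fun h => absurd h h1,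
        fun h => absurd h h2, ?_⟩
      intro a ha
      exact contained_of_cert n (14 * (n / 2) + 11) hn (cert_general n hn) a ha

end Pool.Agent.Results.MP_59f61a_co.OneLoan
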